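import Pool.Agent.Helper96.SE.Stmts
import Pool.Agent.Helper58.Grid.Sound

set_option autoImplicit false

namespace Pool.Agent.Helper96.SE

open Pool.Agent.Helper52.Grid

theorem st_SBS : ST_SBS := by
  intro φ a i
  have h : cnt (subs φ) i (subs φ).length % 2 = 0 := by
    rw [Pool.Agent.Helper58.Grid.cnt_eq, List.take_length]
    exact Pool.Agent.Helper58.Grid.cn_subs i φ
  unfold bst
  rw [h]
  simp

end Pool.Agent.Helper96.SE
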