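import Pool.Agent.Helper96.SE.Stmts
import Pool.Agent.Helper44.BC.SIZF

set_option autoImplicit false

namespace Pool.Agent.Helper96.SE

open Pool.Agent.Helper31.BC (PCl chs chf inn sel col vr sizf_cl sizf_len sizf_nil sizf_append
  sizf_cons sizf_map sizf_flat sizf_ite)
open Pool.Agent.Helper52.Grid

theorem st_SZF : ST_SZF := by
  intro k q l hk hq hl
  have e : (subs (ccF k q l)).length = sizf_len (pA k q l (fun _ => false) (fun _ => 0)) +
      sizf_len (pB (k * q) l (fun _ => 0)) := by
    unfold ccF sizf_len subs
    rw [List.flatMap_append, List.length_append]
  rw [e]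
  have hA : sizf_len (pA k q l (fun _ => false) (fun _ => 0)) ≤
      k * (2 * q + 1) + (k * q) * ((k * q) * 7) ∧
      k * (2 * q + 1) ≤ sizf_len (pA k q l (fun _ => false) (fun _ => 0)) := by
    unfold pA
    rw [sizf_append, sizf_map _ _ q (by intro x _; simp), List.length_range]
    refine ⟨Nat.add_le_add_left ?_ _, Nat.le_add_right _ _⟩
    have h1 := sizf_flat (List.range (k * q)) (fun u => (List.range (k * q)).flatMap fun v =>
      if u < v then
        [([(u, false), (v, false), (xr (k * q) l u v, true)],
          if (fun _ : ℕ => false) u = false then 0
            else if (fun _ : ℕ => false) v = false then 1 else 2)]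
      else []) ((k * q) * 7) (by
        intro u _
        have h2 := sizf_flat (List.range (k * q)) (fun v =>
          if u < v then
            [([(u, false), (v, false), (xr (k * q) l u v, true)],
              if (fun _ : ℕ => false) u = false then 0
                else if (fun _ : ℕ => false) v = false then 1 else 2)]
          else []) 7 (by
            intro v _
            exact sizf_ite _ _ (by simp))
        rw [List.length_range] at h2
        exact h2)
    rw [List.length_range] at h1
    exact h1
  have hB : sizf_len (pB (k * q) l (fun _ => 0)) ≤
      (k * q) * (2 * l + 1) + (k * q) * ((k * q) * (l * 7)) := by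
    unfold pB
    rw [sizf_append, sizf_map _ _ l (by intro x _; simp), List.length_range]
    refine Nat.add_le_add_left ?_ _
    have h1 := sizf_flat (List.range (k * q)) (fun u => (List.range (k * q)).flatMap fun v =>
      (List.range l).flatMap fun c =>
      if u < v then
        [([(vr (k * q) l u c, false), (vr (k * q) l v c, false), (wr (k * q) l u v, true)],
          if (fun _ : ℕ => 0) u ≠ c then 0 else if (fun _ : ℕ => 0) v ≠ c then 1 else 2)]
      else []) ((k * q) * (l * 7)) (by
        intro u _
        have h2 := sizf_flat (List.range (k * q)) (fun v => (List.range l).flatMap fun c =>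
          if u < v then
            [([(vr (k * q) l u c, false), (vr (k * q) l v c, false), (wr (k * q) l u v, true)],
              if (fun _ : ℕ => 0) u ≠ c then 0 else if (fun _ : ℕ => 0) v ≠ c then 1 else 2)]
          else []) (l * 7) (by
            intro v _
            have h3 := sizf_flat (List.range l) (fun c =>
              if u < v then
                [([(vr (k * q) l u c, false), (vr (k * q) l v c, false), (wr (k * q) l u v, true)],
                  if (fun _ : ℕ => 0) u ≠ c then 0 else if (fun _ : ℕ => 0) v ≠ c then 1 else 2)]
              else []) 7 (by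
                intro c _
                exact sizf_ite _ _ (by simp))
            rw [List.length_range] at h3
            exact h3)
        rw [List.length_range] at h2
        exact h2)
    rw [List.length_range] at h1
    exact h1
  set m := k * q with hm
  have hkm : k ≤ m := by
    rw [hm]
    exact Nat.le_mul_of_pos_right k hq
  have hm1 : 1 ≤ m := le_trans hk hkm
  constructor
  · have h1 : k * (2 * q + 1) = 2 * m + k := by
      rw [hm]
      ring
    have h2 : m ≤ m ^ 2 * l := by
      calc m = m * 1 * 1 := by ring
        _ ≤ m * m * l := Nat.mul_le_mul (Nat.mul_le_mul_left m hm1) hl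
        _ = m ^ 2 * l := by ring
    have h3 : m * l ≤ m ^ 2 * l := by
      have : m ≤ m ^ 2 := by nlinarith
      exact Nat.mul_le_mul_right l this
    have h4 : m ^ 2 ≤ m ^ 2 * l := Nat.le_mul_of_pos_right _ hl
    have h5 : m * (2 * l + 1) = 2 * (m * l) + m := by ring
    have h6 : m * (m * 7) = 7 * m ^ 2 := by ring
    have h7 : m * (m * (l * 7)) = 7 * (m ^ 2 * l) := by ring
    have h8 : 20 * m ^ 2 * l = 20 * (m ^ 2 * l) := by ring
    rw [h8]
    rw [h1, h6] at hA
    rw [h5, h7] at hB
    omega
  · have h1 : k ≤ k * (2 * q + 1) := Nat.le_mul_of_pos_right k (by omega)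
    omega

end Pool.Agent.Helper96.SE
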